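import Mathlib

/-!
# Groups with isomorphic subrack lattices and non-isomorphic conjugation racks

The two groups of order `273` are the two nonabelian groups `C₉₁ ⋊ C₃` with trivial centre, where
the generator of `C₃` acts on `C₉₁` as multiplication by `16` and by `9`, respectively.
-/

namespace Pool.Agent.Results.MP_f3891b_al.SameSubrackLattice

/-- Subracks of the conjugation rack `x ▷ y = x y x⁻¹` of a group. -/
def IsSubrack {G : Type} [Group G] (S : Set G) : Prop := ∀ x ∈ S, ∀ y ∈ S, x * y * x⁻¹ ∈ S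

/-- The subrack lattice of a group, ordered by inclusion. -/
abbrev SubrackLattice (G : Type) [Group G] : Type := {S : Set G // IsSubrack S}

/-- The conjugation racks of `G` and `H` are isomorphic. -/
def RackIso (G H : Type) [Group G] [Group H] : Prop :=
  ∃ f : G ≃ H, ∀ x y, f (x * y * x⁻¹) = f x * f y * (f x)⁻¹

/-! ### The groups -/

/-- The power `u ^ i` for `i ∈ ℤ/3`. -/
def pw (u : ZMod 91) (i : ZMod 3) : ZMod 91 := u ^ i.val

theorem pw_zero (u : ZMod 91) : pw u 0 = 1 := by simp [pw]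

theorem pw_add {u : ZMod 91} (hu : u ^ 3 = 1) (i j : ZMod 3) : pw u (i + j) = pw u i * pw u j := by
  unfold pw
  rw [ZMod.val_add, ← pow_add, ← pow_eq_pow_mod _ hu]

theorem pw_cube {u : ZMod 91} (hu : u ^ 3 = 1) (i : ZMod 3) : pw u i ^ 3 = 1 := by
  unfold pw
  rw [← pow_mul, mul_comm, pow_mul, hu, one_pow]

/-- The underlying type of the group `C₉₁ ⋊ C₃`, the generator of `C₃` acting as `u`. The element
`(t, i)` is the affine map `z ↦ u ^ i z + t`. -/
@[ext] structure Gp (u : ZMod 91) where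
  /-- The translation part. -/
  t : ZMod 91
  /-- The linear part. -/
  i : ZMod 3

instance (u : ZMod 91) : Mul (Gp u) := ⟨fun x y => ⟨x.t + pw u x.i * y.t, x.i + y.i⟩⟩

instance (u : ZMod 91) : One (Gp u) := ⟨⟨0, 0⟩⟩

instance (u : ZMod 91) : Inv (Gp u) := ⟨fun x => ⟨-(pw u (-x.i) * x.t), -x.i⟩⟩

theorem mul_t {u : ZMod 91} (x y : Gp u) : (x * y).t = x.t + pw u x.i * y.t := rfl

theorem mul_i {u : ZMod 91} (x y : Gp u) : (x * y).i = x.i + y.i := rfl

theorem one_t {u : ZMod 91} : (1 : Gp u).t = 0 := rfl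

theorem one_i {u : ZMod 91} : (1 : Gp u).i = 0 := rfl

theorem inv_t {u : ZMod 91} (x : Gp u) : (x⁻¹).t = -(pw u (-x.i) * x.t) := rfl

theorem inv_i {u : ZMod 91} (x : Gp u) : (x⁻¹).i = -x.i := rfl

instance (u : ZMod 91) [hu : Fact (u ^ 3 = 1)] : Group (Gp u) :=
  Group.ofLeftAxioms
    (fun x y z => by
      apply Gp.ext
      · rw [mul_t, mul_t, mul_t, mul_t, mul_i, pw_add hu.out]; ring
      · rw [mul_i, mul_i, mul_i, mul_i, add_assoc])
    (fun x => by
      apply Gp.ext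
      · rw [mul_t, one_t, one_i, pw_zero]; ring
      · rw [mul_i, one_i, zero_add])
    (fun x => by
      apply Gp.ext
      · rw [mul_t, inv_t, inv_i, one_t]; ring
      · rw [mul_i, inv_i, one_i, neg_add_cancel])

/-- `Gp u` as a product. -/
def Gp.equiv (u : ZMod 91) : Gp u ≃ ZMod 91 × ZMod 3 where
  toFun x := (x.t, x.i)
  invFun x := ⟨x.1, x.2⟩
  left_inv _ := rfl
  right_inv _ := rfl

instance (u : ZMod 91) : Finite (Gp u) := Finite.of_equiv _ (Gp.equiv u).symm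

theorem conj_eq {u : ZMod 91} [hu : Fact (u ^ 3 = 1)] (x y : Gp u) :
    x * y * x⁻¹ = ⟨(1 - pw u y.i) * x.t + pw u x.i * y.t, y.i⟩ := by
  apply Gp.ext
  · rw [mul_t, mul_t, mul_i, inv_t]
    have h1 : pw u (x.i + y.i) * pw u (-x.i) = pw u y.i := by
      rw [← pw_add hu.out]; congr 1; ring
    show x.t + pw u x.i * y.t + pw u (x.i + y.i) * -(pw u (-x.i) * x.t) =
      (1 - pw u y.i) * x.t + pw u x.i * y.t
    linear_combination (-x.t) * h1
  · rw [mul_i, mul_i, inv_i]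
    show x.i + y.i + -x.i = y.i
    ring

/-! ### The elements outside of the kernel, in fixed point coordinates -/

/-- The element of type `i` with fixed point `b`. -/
def E (u : ZMod 91) (b : ZMod 91) (i : ZMod 3) : Gp u := ⟨(1 - pw u i) * b, i⟩

/-- The condition that `1 - u` and `1 - u²` are units. -/
def Good (u : ZMod 91) : Prop := ∀ i : ZMod 3, i ≠ 0 → (1 - pw u i) * (1 - pw u i)⁻¹ = 1

theorem eq_E {u : ZMod 91} (hg : Good u) (x : Gp u) (hx : x.i ≠ 0) :
    x = E u ((1 - pw u x.i)⁻¹ * x.t) x.i := by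
  apply Gp.ext
  · show x.t = (1 - pw u x.i) * ((1 - pw u x.i)⁻¹ * x.t)
    rw [← mul_assoc, hg _ hx, one_mul]
  · rfl

section Closure

variable {u : ZMod 91} [hu : Fact (u ^ 3 = 1)] {S : Set (Gp u)} (hS : IsSubrack S)

include hS

theorem mem_E_E {a b : ZMod 91} {i j : ZMod 3} (h1 : E u a i ∈ S) (h2 : E u b j ∈ S) :
    E u (a + pw u i * (b - a)) j ∈ S := by
  have h := hS _ h1 _ h2
  rw [conj_eq] at h
  have e : E u (a + pw u i * (b - a)) j =
      ⟨(1 - pw u (E u b j).i) * (E u a i).t + pw u (E u a i).i * (E u b j).t, (E u b j).i⟩ := by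
    apply Gp.ext
    · show (1 - pw u j) * (a + pw u i * (b - a)) =
        (1 - pw u j) * ((1 - pw u i) * a) + pw u i * ((1 - pw u j) * b)
      ring
    · rfl
  rwa [e]

theorem mem_T_E {t b : ZMod 91} {j : ZMod 3} (h1 : (⟨t, 0⟩ : Gp u) ∈ S) (h2 : E u b j ∈ S) :
    E u (b + t) j ∈ S := by
  have h := hS _ h1 _ h2
  rw [conj_eq] at h
  have e : E u (b + t) j = ⟨(1 - pw u (E u b j).i) * (⟨t, 0⟩ : Gp u).t +
      pw u (⟨t, 0⟩ : Gp u).i * (E u b j).t, (E u b j).i⟩ := by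
    apply Gp.ext
    · show (1 - pw u j) * (b + t) = (1 - pw u j) * t + pw u 0 * ((1 - pw u j) * b)
      rw [pw_zero]; ring
    · rfl
  rwa [e]

theorem mem_E_T {a s : ZMod 91} {i : ZMod 3} (h1 : E u a i ∈ S) (h2 : (⟨s, 0⟩ : Gp u) ∈ S) :
    (⟨pw u i * s, 0⟩ : Gp u) ∈ S := by
  have h := hS _ h1 _ h2
  rw [conj_eq] at h
  have e : (⟨pw u i * s, 0⟩ : Gp u) = ⟨(1 - pw u (⟨s, 0⟩ : Gp u).i) * (E u a i).t +
      pw u (E u a i).i * (⟨s, 0⟩ : Gp u).t, (⟨s, 0⟩ : Gp u).i⟩ := by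
    apply Gp.ext
    · show pw u i * s = (1 - pw u 0) * ((1 - pw u i) * a) + pw u i * s
      rw [pw_zero]; ring
    · rfl
  rwa [e]

theorem mem_T_E_mul {t b : ZMod 91} {j : ZMod 3} (h1 : (⟨t, 0⟩ : Gp u) ∈ S) (h2 : E u b j ∈ S)
    (m : ZMod 91) : E u (b + m * t) j ∈ S := by
  have h : ∀ n : ℕ, E u (b + n * t) j ∈ S := by
    intro n
    induction n with
    | zero => simpa using h2
    | succ n ih =>
      have h3 := mem_T_E hS h1 ih
      have e : b + ((n + 1 : ℕ) : ZMod 91) * t = b + n * t + t := by push_cast; ring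
      rwa [e]
  have h3 := h m.val
  rwa [ZMod.natCast_zmod_val] at h3

theorem mem_E_E_step {a b c : ZMod 91} {i j : ZMod 3} (h1 : E u a i ∈ S) (h2 : E u b j ∈ S)
    (h3 : E u c j ∈ S) : E u (c + (-((1 - pw u i) * (1 - pw u j))) * (b - a)) j ∈ S := by
  have k1 := mem_E_E hS h2 h3
  have k2 := mem_E_E hS h2 k1
  have k3 := mem_E_E hS h1 k2
  have k4 := mem_E_E hS h1 k3
  have k5 := mem_E_E hS h2 k4
  have k6 := mem_E_E hS h1 k5
  have hi := pw_cube hu.out i
  have hj := pw_cube hu.out j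
  have e : c + (-((1 - pw u i) * (1 - pw u j))) * (b - a) =
      a + pw u i * (b + pw u j * (a + pw u i * (a + pw u i * (b + pw u j * (b + pw u j * (c - b) - b)
        - a) - a) - b) - a) := by
    generalize pw u i = p at hi ⊢
    generalize pw u j = q at hj ⊢
    linear_combination (-(q * (b + q ^ 2 * (c - b) - a))) * hi + (-(c - b)) * hj
  rwa [e]

theorem mem_E_E_mul (hg : Good u) {a b : ZMod 91} {i j : ZMod 3} (hi : i ≠ 0) (hj : j ≠ 0)
    (h1 : E u a i ∈ S) (h2 : E u b j ∈ S) (m : ZMod 91) : E u (b + m * (b - a)) j ∈ S := by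
  set e := -((1 - pw u i) * (1 - pw u j)) with he
  have h : ∀ n : ℕ, E u (b + n * e * (b - a)) j ∈ S := by
    intro n
    induction n with
    | zero => simpa using h2
    | succ n ih =>
      have h3 := mem_E_E_step hS h1 h2 ih
      have e' : b + ((n + 1 : ℕ) : ZMod 91) * e * (b - a) = b + n * e * (b - a) + e * (b - a) := by
        push_cast; ring
      rwa [e']
  have h3 := h (m * -((1 - pw u i)⁻¹ * (1 - pw u j)⁻¹)).val
  rw [ZMod.natCast_zmod_val] at h3
  have e2 : m * -((1 - pw u i)⁻¹ * (1 - pw u j)⁻¹) * e = m := by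
    rw [he]
    linear_combination (m * (1 - pw u j) * (1 - pw u j)⁻¹) * hg i hi + m * hg j hj
  rwa [e2] at h3

end Closure

/-! ### The bijection between the groups -/

/-- The bijection: identity in fixed point coordinates, and `ψ` on the translations. -/
def φ (u v : ZMod 91) (ψ : ZMod 91 → ZMod 91) (x : Gp u) : Gp v :=
  if x.i = 0 then ⟨ψ x.t, 0⟩ else E v ((1 - pw u x.i)⁻¹ * x.t) x.i

theorem φ_T (u v : ZMod 91) (ψ : ZMod 91 → ZMod 91) (t : ZMod 91) :
    φ u v ψ ⟨t, 0⟩ = ⟨ψ t, 0⟩ := if_pos rfl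

theorem φ_E {u : ZMod 91} (hg : Good u) (v : ZMod 91) (ψ : ZMod 91 → ZMod 91) (b : ZMod 91)
    {i : ZMod 3} (hi : i ≠ 0) : φ u v ψ (E u b i) = E v b i := by
  unfold φ
  rw [if_neg (show (E u b i).i ≠ 0 from hi)]
  show E v ((1 - pw u i)⁻¹ * ((1 - pw u i) * b)) i = _
  rw [← mul_assoc, mul_comm ((1 - pw u i)⁻¹), hg i hi, one_mul]

theorem cases_of {u : ZMod 91} (hg : Good u) (x : Gp u) :
    (∃ t, x = ⟨t, 0⟩) ∨ ∃ b i, i ≠ 0 ∧ x = E u b i := by
  by_cases hx : x.i = 0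
  · exact Or.inl ⟨x.t, Gp.ext rfl hx⟩
  · exact Or.inr ⟨_, _, hx, eq_E hg x hx⟩

/-- The image of a subrack is a subrack. -/
theorem image_subrack {u v : ZMod 91} [hu : Fact (u ^ 3 = 1)] [hv : Fact (v ^ 3 = 1)]
    (hgu : Good u) {ψ : ZMod 91 → ZMod 91}
    (h1 : ∀ t, ψ (u * t) = v * ψ t) (h2 : ∀ t, ∃ m, ψ t = m * t) {S : Set (Gp u)}
    (hS : IsSubrack S) : IsSubrack (φ u v ψ '' S) := by
  have h3 : ∀ (i : ZMod 3) t, ψ (pw u i * t) = pw v i * ψ t := by
    intro i t
    unfold pw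
    induction i.val with
    | zero => simp
    | succ n ih => rw [pow_succ', pow_succ', mul_assoc, h1, ih, mul_assoc]
  rintro _ ⟨x, hx, rfl⟩ _ ⟨y, hy, rfl⟩
  rw [conj_eq]
  rcases cases_of hgu x with ⟨t, rfl⟩ | ⟨a, i, hi, rfl⟩
  · rcases cases_of hgu y with ⟨s, rfl⟩ | ⟨b, j, hj, rfl⟩
    · refine ⟨_, hy, ?_⟩
      rw [φ_T, φ_T]
      apply Gp.ext
      · show ψ s = (1 - pw v 0) * ψ t + pw v 0 * ψ s
        rw [pw_zero]; ring
      · rfl
    · obtain ⟨m, hm⟩ := h2 t
      refine ⟨_, mem_T_E_mul hS hx hy m, ?_⟩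
      rw [φ_T, φ_E hgu _ _ _ hj, φ_E hgu _ _ _ hj]
      apply Gp.ext
      · show (1 - pw v j) * (b + m * t) = (1 - pw v j) * ψ t + pw v 0 * ((1 - pw v j) * b)
        rw [pw_zero, hm]; ring
      · rfl
  · rcases cases_of hgu y with ⟨s, rfl⟩ | ⟨b, j, hj, rfl⟩
    · refine ⟨_, mem_E_T hS hx hy, ?_⟩
      rw [φ_T, φ_T, φ_E hgu _ _ _ hi]
      apply Gp.ext
      · show ψ (pw u i * s) = (1 - pw v 0) * ((1 - pw v i) * a) + pw v i * ψ s
        rw [pw_zero, h3]; ring
      · rfl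
    · refine ⟨_, mem_E_E_mul hS hgu hi hj hx hy (pw v i - 1), ?_⟩
      rw [φ_E hgu _ _ _ hi, φ_E hgu _ _ _ hj, φ_E hgu _ _ _ hj]
      apply Gp.ext
      · show (1 - pw v j) * (b + (pw v i - 1) * (b - a)) =
          (1 - pw v j) * ((1 - pw v i) * a) + pw v i * ((1 - pw v j) * b)
        ring
      · rfl

/-! ### The concrete data -/

/-- The map `ψ` (base `128` digits). -/
def psi (t : ZMod 91) : ZMod 91 :=
  ((0xf9799ae96ac6532dad0213989419464d68f52d28250a0c02b1622e76b1cb860165342eca69b422d682568c33d4e9a4245532cc33ecce9c6e682183c59fa26c808891e386d2782a7880f4c9d806e8080 / 128 ^ t.val % 128 : ℕ) : ZMod 91)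

/-- The inverse of `psi`. -/
def psii (t : ZMod 91) : ZMod 91 :=
  ((0x115084af22ac60c3255013398a2a4d64a58f51f3d410a0c02b6940b7609cb8364e8b43cca6b7b2f16ba568e9c44e9ab2454517923e5ce9c606ac186659fcc0b0c8cf1e386cb5c288080ea5b1906b0080 / 128 ^ t.val % 128 : ℕ) : ZMod 91)

theorem psi_psii : ∀ t, psi (psii t) = t := by decide +kernel

theorem psii_psi : ∀ t, psii (psi t) = t := by decide +kernel

theorem psi_mul : ∀ t, psi (16 * t) = 9 * psi t := by decide +kernel

theorem psii_mul : ∀ t, psii (9 * t) = 16 * psii t := by decide +kernel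

theorem psi_dvd : ∀ t, ∃ m, psi t = m * t := by decide +kernel

theorem psii_dvd : ∀ t, ∃ m, psii t = m * t := by decide +kernel

instance fact16 : Fact ((16 : ZMod 91) ^ 3 = 1) := ⟨by decide +kernel⟩

instance fact9 : Fact ((9 : ZMod 91) ^ 3 = 1) := ⟨by decide +kernel⟩

theorem good16 : Good 16 := by
  unfold Good
  intro i hi
  have hu : ∀ i : ZMod 3, i ≠ 0 → IsUnit (1 - pw 16 i) := by
    intro i hi
    have : ∀ i : ZMod 3, i ≠ 0 → ∃ y, (1 - pw 16 i) * y = 1 := by decide +kernel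
    obtain ⟨y, hy⟩ := this i hi
    exact IsUnit.of_mul_eq_one y hy
  exact ZMod.mul_inv_of_unit _ (hu i hi)

theorem good9 : Good 9 := by
  unfold Good
  intro i hi
  have hu : ∀ i : ZMod 3, i ≠ 0 → IsUnit (1 - pw 9 i) := by
    intro i hi
    have : ∀ i : ZMod 3, i ≠ 0 → ∃ y, (1 - pw 9 i) * y = 1 := by decide +kernel
    obtain ⟨y, hy⟩ := this i hi
    exact IsUnit.of_mul_eq_one y hy
  exact ZMod.mul_inv_of_unit _ (hu i hi)

theorem φ_φ {u v : ZMod 91} (hu : Good u) (hv : Good v) {ψ χ : ZMod 91 → ZMod 91}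
    (h : ∀ t, χ (ψ t) = t) (x : Gp u) : φ v u χ (φ u v ψ x) = x := by
  rcases cases_of hu x with ⟨t, rfl⟩ | ⟨b, i, hi, rfl⟩
  · rw [φ_T, φ_T, h]
  · rw [φ_E hu _ _ _ hi, φ_E hv _ _ _ hi]

/-- The bijection of the two groups. -/
def bij : Gp 16 ≃ Gp 9 where
  toFun := φ 16 9 psi
  invFun := φ 9 16 psii
  left_inv := φ_φ good16 good9 psii_psi
  right_inv := φ_φ good9 good16 psi_psii

theorem subrack_iff (S : Set (Gp 16)) : IsSubrack S ↔ IsSubrack (bij '' S) := by
  constructor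
  · intro hS
    exact image_subrack good16 psi_mul psi_dvd hS
  · intro hS
    have h : IsSubrack (bij.symm '' (bij '' S)) := image_subrack good9 psii_mul psii_dvd hS
    rwa [Equiv.symm_image_image] at h

/-- The isomorphism of lattices. -/
def latticeIso : SubrackLattice (Gp 16) ≃o SubrackLattice (Gp 9) where
  toFun S := ⟨bij '' S.1, (subrack_iff S.1).mp S.2⟩
  invFun T := ⟨bij.symm '' T.1, (subrack_iff _).mpr (by
    rw [Equiv.image_symm_image]; exact T.2)⟩
  left_inv S := Subtype.ext (Equiv.symm_image_image _ _)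
  right_inv T := Subtype.ext (Equiv.image_symm_image _ _)
  map_rel_iff' := by
    intro S T
    show bij '' S.1 ⊆ bij '' T.1 ↔ S.1 ⊆ T.1
    exact Set.image_subset_image_iff bij.injective

/-! ### The racks are not isomorphic -/

theorem not_rackIso : ¬ RackIso (Gp 16) (Gp 9) := by
  rintro ⟨f, hf⟩
  set j := (f ⟨0, 1⟩).i with hj
  set g : ZMod 91 → ZMod 91 := fun s => (f ⟨s, 1⟩).t with hgdef
  set w := pw 9 j with hw
  have p1 : pw 16 1 = 16 := by decide +kernel
  have hfi : ∀ s, (f ⟨s, 1⟩).i = j := by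
    intro s
    have h1 := hf ⟨(1 - 16)⁻¹ * s, 0⟩ ⟨0, 1⟩
    rw [conj_eq, conj_eq] at h1
    have e : (⟨(1 - pw 16 (⟨0, 1⟩ : Gp 16).i) * (⟨(1 - 16)⁻¹ * s, 0⟩ : Gp 16).t +
        pw 16 (⟨(1 - 16)⁻¹ * s, 0⟩ : Gp 16).i * (⟨0, 1⟩ : Gp 16).t, (⟨0, 1⟩ : Gp 16).i⟩ : Gp 16) =
        ⟨s, 1⟩ := by
      apply Gp.ext
      · show (1 - pw 16 1) * ((1 - 16)⁻¹ * s) + pw 16 0 * 0 = s
        have h2 := good16 1 (by decide)
        rw [p1] at h2 ⊢
        rw [← mul_assoc, h2]; ring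
      · rfl
    rw [e] at h1
    rw [h1]
  have hfeq : ∀ s, f ⟨s, 1⟩ = ⟨g s, j⟩ := fun s => Gp.ext rfl (hfi s)
  have key : ∀ s s', g ((1 - 16) * s + 16 * s') = (1 - w) * g s + w * g s' := by
    intro s s'
    have h1 := hf ⟨s, 1⟩ ⟨s', 1⟩
    rw [conj_eq, conj_eq, hfeq s, hfeq s'] at h1
    have h2 := congrArg Gp.t h1
    rw [← p1]
    exact h2
  have hginj : Function.Injective g := by
    intro s s' h
    have h1 : f ⟨s, 1⟩ = f ⟨s', 1⟩ := by rw [hfeq, hfeq, h]
    exact congrArg Gp.t (f.injective h1)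
  -- normalise
  set g' : ZMod 91 → ZMod 91 := fun s => g s - g 0 with hg'
  have key' : ∀ s s', g' ((1 - 16) * s + 16 * s') = (1 - w) * g' s + w * g' s' := by
    intro s s'
    show g ((1 - 16) * s + 16 * s') - g 0 = (1 - w) * (g s - g 0) + w * (g s' - g 0)
    rw [key]; ring
  have hg0 : g' 0 = 0 := sub_self _
  have ha : ∀ s, g' ((1 - 16) * s) = (1 - w) * g' s := by
    intro s
    have := key' s 0
    rwa [mul_zero, add_zero, hg0, mul_zero, add_zero] at this
  have hb : ∀ s, g' (16 * s) = w * g' s := by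
    intro s
    have := key' 0 s
    rwa [mul_zero, zero_add, hg0, mul_zero, zero_add] at this
  have hadd : ∀ p q, g' (p + q) = g' p + g' q := by
    intro p q
    obtain ⟨p', rfl⟩ : ∃ p', (1 - 16) * p' = p := by
      have : ∀ p : ZMod 91, ∃ p', (1 - 16) * p' = p := by decide +kernel
      exact this p
    obtain ⟨q', rfl⟩ : ∃ q', 16 * q' = q := by
      have : ∀ q : ZMod 91, ∃ q', 16 * q' = q := by decide +kernel
      exact this q
    rw [key', ha, hb]
  have hlin : ∀ s, g' s = s * g' 1 := by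
    have h : ∀ n : ℕ, g' n = n * g' 1 := by
      intro n
      induction n with
      | zero => simp [hg0]
      | succ n ih => push_cast; rw [hadd, ih]; ring
    intro s
    have := h s.val
    rwa [ZMod.natCast_zmod_val] at this
  have h1 : (16 - w) * g' 1 = 0 := by
    have h2 := hb 1
    rw [mul_one, hlin 16] at h2
    rw [sub_mul, h2, sub_self]
  have h2 : g' (16 - w) = g' 0 := by rw [hlin, h1, hg0]
  have h3 : g (16 - w) = g 0 := sub_left_injective h2
  have h4 : 16 - w = 0 := hginj h3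
  have h5 : ∀ j : ZMod 3, 16 - pw 9 j ≠ 0 := by decide +kernel
  exact h5 j h4

/-- **Theorem.** There are finite groups `G`, `H` (of order `273`) whose subrack lattices are
isomorphic while their conjugation racks are not. -/
theorem result : ∃ (G H : Type) (_ : Group G) (_ : Group H) (_ : Finite G) (_ : Finite H),
    Nat.card G = 273 ∧ Nat.card H = 273 ∧
    Nonempty (SubrackLattice G ≃o SubrackLattice H) ∧ ¬ RackIso G H := by
  have hc : ∀ u, Nat.card (Gp u) = 273 := by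
    intro u
    rw [Nat.card_congr (Gp.equiv u), Nat.card_prod, Nat.card_zmod, Nat.card_zmod]
  exact ⟨Gp 16, Gp 9, inferInstance, inferInstance, inferInstance, inferInstance, hc 16, hc 9,
    ⟨latticeIso⟩, not_rackIso⟩

end Pool.Agent.Results.MP_f3891b_al.SameSubrackLattice
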